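import Pool.Agent.Work.MP_475c1a_ag.Main

namespace Pool.Agent.Results.MP_475c1a_ag.ClRep

open Pool.Agent.Work.MP_475c1a_ag

/-- Let `f = 0` be a smooth plane quartic, `S` the del Pezzo surface `u ^ 2 = f`, and `V` a double
Veronese cone `w ^ 2 = c t ^ 3 + q t ^ 2 + r t + s` whose discriminant curve is the dual curve of
`f = 0`. Then all Weil divisors on `S` are Cartier (so `Cl S = Pic S`), and for some isomorphism
`Aut V ≃ Aut S` the complexified class groups of `V` and `S` are isomorphic representations. -/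
theorem result (f : MvPolynomial (Fin 3) ℂ) (hf : f.IsHomogeneous 4) (hsm : IsSmoothForm f)
    (c : ℂ) (hc : c ≠ 0) (q r s : MvPolynomial (Fin 3) ℂ) (hq : q.IsHomogeneous 2)
    (hr : r.IsHomogeneous 4) (hs : s.IsHomogeneous 6) (hd : DiscIsDual f c q r s) :
    IsVariety (cone c hq hr hs) ∧ IsVariety (delPezzo hf) ∧ WeilIsCartier (delPezzo hf) ∧
      SameClRep (cone c hq hr hs) (delPezzo hf) :=
  main f hf hsm c hc q r s hq hr hs hd

end Pool.Agent.Results.MP_475c1a_ag.ClRep
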